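import Pool.Agent.Lib.NSW77.Main
import Pool.Agent.Lib.Tower.Main
import Pool.Agent.Lib.Tower36.Aux4
import Pool.Agent.Lib.Szpiro98.Core4
import Pool.Agent.Lib.Szpiro98.Coord4
import Pool.Agent.Lib.Szpiro98.Mid4
import Pool.Agent.Lib.Szpiro98.Rank4
import Pool.Agent.Lib.Szpiro98.Ovl4
import Pool.Agent.Lib.Szpiro98.Ksup4
import Pool.Agent.Lib.Szpiro98.Dsc4
import Pool.Agent.Lib.Szpiro98.LocT4
import Pool.Agent.Lib.Szpiro98.Ell4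

set_option autoImplicit false

namespace Pool.Agent.Lib.NSW77
open Pool.Agent.Szpiro98

theorem locT : V4.LocTStmt :=
  V4.loct (Pool.Agent.Tower36.aux4 Tower.tower2) (V4.mid (V4.coord V4.core V4.lvb) V4.rank (V4.ovl V4.lvb))
    V4.ksup V4.dsc

theorem large_prime : ∃ δ : ℝ, 0 < δ ∧ ∃ N : ℕ, ∀ p r : ℕ, N ≤ p →
    (p : ℤ) ^ 2 - 2 * (r : ℤ) ^ 2 = -1 →
    (∃ q : ℕ, q.Prime ∧ q ∣ p ∧ Real.log p ^ (1 + δ) < q) ∧
      ∃ q : ℕ, q.Prime ∧ q ∣ r ∧ Real.log p ^ (1 + δ) < q :=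
  nsw locT V4.quad

end Pool.Agent.Lib.NSW77
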