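import Mathlib

set_option autoImplicit false

open Polynomial Finset

namespace Pool.Agent.Lib.NSW77

/-- descent: every positive solution is an odd power of `1 + √2` -/
lemma param (r : ℕ) : ∀ p : ℕ, p ^ 2 + 1 = 2 * r ^ 2 →
    ∃ k : ℕ, (⟨1, 1⟩ : ℤ√2) ^ (2 * k + 1) = ⟨p, r⟩ := by
  induction r using Nat.strong_induction_on with
  | _ r ih =>
    intro p h
    rcases lt_or_ge r 3 with h3 | h3
    · have hp : p ≤ 3 := by nlinarith
      refine ⟨0, ?_⟩
      interval_cases r <;> interval_cases p <;> simp_all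
    · have h1 : 4 * r ≤ 3 * p := by nlinarith
      have h2 : 2 * p ≤ 3 * r := by nlinarith
      have h4 : r < p := by nlinarith
      obtain ⟨a, ha⟩ := Nat.exists_eq_add_of_le h1
      obtain ⟨b, hb⟩ := Nat.exists_eq_add_of_le h2
      have ha' : (a : ℤ) = 3 * p - 4 * r := by omega
      have hb' : (b : ℤ) = 3 * r - 2 * p := by omega
      have h' : (p : ℤ) ^ 2 + 1 = 2 * r ^ 2 := by exact_mod_cast h
      obtain ⟨k, hk⟩ := ih b (by omega) a (by
        have : (a : ℤ) ^ 2 + 1 = 2 * b ^ 2 := by rw [ha', hb']; linear_combination h'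
        exact_mod_cast this)
      refine ⟨k + 1, ?_⟩
      rw [show 2 * (k + 1) + 1 = (2 * k + 1) + 2 by ring, pow_add, hk]
      ext <;> simp [sq, ha', hb'] <;> ring

lemma cyc_ge {n : ℕ} (hn : n ≠ 0) (t : ℝ) :
    |(|t| - 1)| ^ n.totient ≤ |(cyclotomic n ℝ).eval t| := by
  have hζ := Complex.isPrimitiveRoot_exp n hn
  have h1 : (((cyclotomic n ℝ).eval t : ℝ) : ℂ) = (cyclotomic n ℂ).eval (t : ℂ) := by
    rw [← map_cyclotomic n Complex.ofRealHom, eval_map, ← Complex.ofRealHom_eq_coe t, eval₂_at_apply]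
    rfl
  rw [← Real.norm_eq_abs ((cyclotomic n ℝ).eval t), ← Complex.norm_real, h1,
    cyclotomic_eq_prod_X_sub_primitiveRoots hζ, eval_prod, norm_prod, ← hζ.card_primitiveRoots,
    ← prod_const]
  refine prod_le_prod (fun _ _ => abs_nonneg _) fun μ hμ => ?_
  have h2 : ‖μ‖ = 1 := (isPrimitiveRoot_of_mem_primitiveRoots hμ).norm'_eq_one hn
  have h3 := abs_norm_sub_norm_le (t : ℂ) μ
  rw [h2, Complex.norm_real, Real.norm_eq_abs] at h3
  rwa [eval_sub, eval_X, eval_C]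

/-- the norm of the cyclotomic value -/
noncomputable def cy (n : ℕ) (x : ℤ√2) : ℕ := ((cyclotomic n (ℤ√2)).eval x).norm.natAbs

lemma hom_cyc {A B : Type*} [CommRing A] [CommRing B] (f : A →+* B) (n : ℕ) (x : A) :
    f ((cyclotomic n A).eval x) = (cyclotomic n B).eval (f x) := by
  rw [← map_cyclotomic n f, eval_map, eval₂_at_apply]

lemma hom_norm {B : Type*} [CommRing B] (f : ℤ√2 →+* B) (y : ℤ√2) :
    (y.norm : B) = f y * f.comp (starRingEnd _) y := by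
  rw [← map_intCast f, Zsqrtd.norm_eq_mul_conj, map_mul]; rfl

lemma cy_ge {n : ℕ} (hn : n ≠ 0) {x : ℤ√2} (hx : x = ⟨3, 2⟩ ∨ x = -⟨3, 2⟩) :
    4 ^ n.totient ≤ cy n x := by
  let f := Zsqrtd.toReal (d := 2) (by norm_num)
  have h1 := hom_norm f ((cyclotomic n (ℤ√2)).eval x)
  rw [hom_cyc, hom_cyc] at h1
  have h2 : (cy n x : ℝ) = |(cyclotomic n ℝ).eval (f x)| *
      |(cyclotomic n ℝ).eval (f.comp (starRingEnd _) x)| := by
    rw [← abs_mul, ← h1, cy, Nat.cast_natAbs, Int.cast_abs]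
  have hs : √(2 : ℝ) ^ 2 = 2 := Real.sq_sqrt (by norm_num)
  have hs1 : (1 : ℝ) ≤ √2 := by rw [Real.le_sqrt] <;> norm_num
  have hs2 : √(2 : ℝ) ≤ 3 / 2 := by rw [Real.sqrt_le_iff]; norm_num
  have e1 : |f x| = 3 + 2 * √2 := by
    rcases hx with rfl | rfl
    · simp only [f, Zsqrtd.toReal_apply]; push_cast; exact abs_of_nonneg (by positivity)
    · rw [map_neg, abs_neg]
      simp only [f, Zsqrtd.toReal_apply]; push_cast; exact abs_of_nonneg (by positivity)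
  have e2 : |f.comp (starRingEnd _) x| = 3 - 2 * √2 := by
    have : f.comp (starRingEnd _) ⟨3, 2⟩ = 3 - 2 * √2 := by
      simp only [f, RingHom.comp_apply, starRingEnd_apply, Zsqrtd.star_mk, Zsqrtd.toReal_apply]
      push_cast; ring
    rcases hx with rfl | rfl
    · rw [this]; exact abs_of_nonneg (by linarith)
    · rw [map_neg, abs_neg, this]; exact abs_of_nonneg (by linarith)
  have h3 := mul_le_mul (cyc_ge hn (f x)) (cyc_ge hn (f.comp (starRingEnd _) x)) (by positivity)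
    (abs_nonneg _)
  rw [← h2, ← mul_pow, e1, e2, abs_of_nonneg (by linarith), abs_of_nonpos (by linarith),
    show (3 + 2 * √2 - 1) * -(3 - 2 * √2 - 1) = (4 : ℝ) by linear_combination 4 * hs] at h3
  exact_mod_cast h3

lemma cy_dvd (n : ℕ) (x : ℤ√2) : cy n x ∣ (x ^ n - 1).norm.natAbs := by
  obtain ⟨g, hg⟩ := cyclotomic.dvd_X_pow_sub_one n (ℤ√2)
  have := congrArg (eval x) hg
  rw [eval_sub, eval_pow, eval_X, eval_one, eval_mul] at this
  rw [this, Zsqrtd.norm_mul, Int.natAbs_mul]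
  exact dvd_mul_right _ _

lemma prime_cy {n q : ℕ} (hq : q.Prime) {x : ℤ√2} (hx : x.norm = 1) (h : q ∣ cy n x)
    (hn : ¬ q ∣ n) : n ∣ q - 1 ∨ n ∣ q + 1 := by
  have : Fact q.Prime := ⟨hq⟩
  let F := AlgebraicClosure (ZMod q)
  have : NeZero (n : F) := ⟨fun h0 => hn ((CharP.cast_eq_zero_iff F q n).mp h0)⟩
  obtain ⟨s, hs⟩ := IsAlgClosed.exists_eq_mul_self (2 : F)
  have key : ∀ f : ℤ√2 →+* F, f ((cyclotomic n (ℤ√2)).eval x) = 0 → n ∣ q - 1 ∨ n ∣ q + 1 := by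
    intro f hf
    rw [hom_cyc] at hf
    have h1 := isRoot_cyclotomic_iff.mp hf
    have h2 := hom_norm f x
    rw [hx, Int.cast_one] at h2
    have h0 : f x ≠ 0 := fun h0 => by rw [h0, zero_mul] at h2; exact one_ne_zero h2
    have h3 : (frobenius F q (f Zsqrtd.sqrtd)) ^ 2 = (f Zsqrtd.sqrtd) ^ 2 := by
      rw [← map_pow, ← map_pow, sq, Zsqrtd.dmuld, map_intCast, map_intCast]
    rcases sq_eq_sq_iff_eq_or_eq_neg.mp h3 with h4 | h4
    · have h5 : (frobenius F q).comp f = f := Zsqrtd.hom_ext _ _ h4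
      have h6 : f x ^ q = f x := congrArg (· x) h5
      refine Or.inl (h1.dvd_of_pow_eq_one _ (mul_right_cancel₀ h0 ?_))
      rw [← pow_succ, Nat.sub_add_cancel hq.one_le, h6, one_mul]
    · have h5 : (frobenius F q).comp f = f.comp (starRingEnd _) := Zsqrtd.hom_ext _ _ (by
        rw [RingHom.comp_apply, h4, RingHom.comp_apply, ← map_neg]
        congr 1)
      have h6 : f x ^ q = f.comp (starRingEnd _) x := congrArg (· x) h5
      exact Or.inr (h1.dvd_of_pow_eq_one _ (by rw [pow_succ', h6, ← h2]))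
  let f : ℤ√2 →+* F := Zsqrtd.lift ⟨s, by rw [← hs]; simp⟩
  have h1 := hom_norm f ((cyclotomic n (ℤ√2)).eval x)
  rw [(CharP.intCast_eq_zero_iff F q _).mpr (Int.natCast_dvd.mpr h)] at h1
  rcases mul_eq_zero.mp h1.symm with h2 | h2
  exacts [key _ h2, key _ h2]

lemma norm_p {p r n : ℕ} (hn : Odd n) (h : (⟨1, 1⟩ : ℤ√2) ^ n = ⟨p, r⟩) :
    ((⟨3, 2⟩ : ℤ√2) ^ n - 1).norm.natAbs = 4 * p ^ 2 ∧
      ((-⟨3, 2⟩ : ℤ√2) ^ n - 1).norm.natAbs = 8 * r ^ 2 := by
  have h1 : (⟨p, r⟩ : ℤ√2).norm = -1 := by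
    rw [← h, ← hn.neg_one_pow]
    exact map_pow Zsqrtd.normMonoidHom _ _
  have h2 : (⟨3, 2⟩ : ℤ√2) ^ n = ⟨p, r⟩ ^ 2 := by
    rw [← h, ← pow_mul, mul_comm, pow_mul]
    congr 1
  rw [hn.neg_pow, h2]
  simp only [Zsqrtd.norm_def] at h1
  constructor
  · have : ((⟨p, r⟩ : ℤ√2) ^ 2 - 1).norm = -((4 * p ^ 2 : ℕ) : ℤ) := by
      rw [show (⟨p, r⟩ : ℤ√2) ^ 2 - 1 = ⟨p, r⟩ * ⟨2 * p, 0⟩ by
        ext <;> simp [sq] <;> linarith, Zsqrtd.norm_mul]
      simp only [Zsqrtd.norm_def, h1]; push_cast; ring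
    rw [this, Int.natAbs_neg, Int.natAbs_natCast]
  · have : (-(⟨p, r⟩ : ℤ√2) ^ 2 - 1).norm = ((8 * r ^ 2 : ℕ) : ℤ) := by
      rw [show -(⟨p, r⟩ : ℤ√2) ^ 2 - 1 = ⟨p, r⟩ * ⟨0, -2 * r⟩ by
        ext <;> simp [sq] <;> linarith, Zsqrtd.norm_mul]
      simp only [Zsqrtd.norm_def, h1]; push_cast; ring
    rw [this, Int.natAbs_natCast]

lemma le_exp {p r n : ℕ} (h : (⟨1, 1⟩ : ℤ√2) ^ n = ⟨p, r⟩) : (p : ℝ) + r ≤ Real.exp n := by
  have h1 := congrArg (Zsqrtd.toReal (d := 2) (by norm_num)) h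
  rw [map_pow] at h1
  simp only [Zsqrtd.toReal_apply] at h1
  push_cast at h1
  have hs1 : (1 : ℝ) ≤ √2 := by rw [Real.le_sqrt] <;> norm_num
  have hs2 : √(2 : ℝ) ≤ 3 / 2 := by rw [Real.sqrt_le_iff]; norm_num
  have h2 : (1 + 1 * √(2 : ℝ)) ^ n ≤ Real.exp 1 ^ n :=
    pow_le_pow_left₀ (by positivity) (by linarith [Real.exp_one_gt_d9]) n
  rw [← Real.exp_nat_mul, mul_one, h1] at h2
  nlinarith [Nat.cast_nonneg (α := ℝ) r]

lemma prod_ge (P : Finset ℕ) (hP : ∀ p ∈ P, 2 ≤ p) :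
    1 ≤ ((P.card : ℝ) + 1) * ∏ p ∈ P, (1 - (p : ℝ)⁻¹) := by
  induction P using Finset.induction_on_max with
  | empty => simp
  | insert a P ha ih =>
    have haP : a ∉ P := fun h => lt_irrefl _ (ha a h)
    have h1 := ih fun p hp => hP p (mem_insert_of_mem hp)
    have h2 : P.card ≤ (Ico 2 a).card :=
      card_le_card fun p hp => mem_Ico.2 ⟨hP p (mem_insert_of_mem hp), ha p hp⟩
    have h3 := hP a (mem_insert_self _ _)
    rw [Nat.card_Ico] at h2
    have h4 : (P.card : ℝ) + 2 ≤ a := by exact_mod_cast (by omega : P.card + 2 ≤ a)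
    have h5 : (0 : ℝ) ≤ P.card := Nat.cast_nonneg _
    have h6 : (P.card : ℝ) + 1 ≤ (P.card + 1 + 1) * (1 - (a : ℝ)⁻¹) := by
      have : ((P.card : ℝ) + 2) * (a : ℝ)⁻¹ ≤ 1 := by
        rw [← div_eq_mul_inv, div_le_one (by linarith)]; exact h4
      linarith
    have h7 : 0 ≤ ∏ p ∈ P, (1 - (p : ℝ)⁻¹) := by
      by_contra h
      nlinarith
    rw [prod_insert haP, card_insert_of_notMem haP, ← mul_assoc]
    push_cast
    nlinarith

lemma omega_le {Q : ℕ} (hQ : 1 ≤ Q) : (Q.primeFactors.card : ℝ) ≤ 2 * Real.log Q := by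
  have h3 : 2 ^ Q.primeFactors.card ≤ Q :=
    (pow_card_le_prod _ _ _ fun p hp => (Nat.prime_of_mem_primeFactors hp).two_le).trans
      (Nat.le_of_dvd hQ (Nat.prod_primeFactors_dvd Q))
  have h4 : (Q.primeFactors.card : ℝ) * Real.log 2 ≤ Real.log Q := by
    rw [← Real.log_pow]
    exact Real.log_le_log (by positivity) (by exact_mod_cast h3)
  have h5 := Real.log_two_gt_d9
  have h6 : (0 : ℝ) ≤ Q.primeFactors.card := Nat.cast_nonneg _
  nlinarith

lemma le_phi {Q : ℕ} (hQ : 1 ≤ Q) : (Q : ℝ) ≤ (2 * Real.log Q + 1) * Q.totient := by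
  have h1 := prod_ge Q.primeFactors fun p hp => (Nat.prime_of_mem_primeFactors hp).two_le
  have h2 : (Q.totient : ℝ) = Q * ∏ p ∈ Q.primeFactors, (1 - (p : ℝ)⁻¹) := by
    have := congrArg (Rat.cast : ℚ → ℝ) (Nat.totient_eq_mul_prod_factors Q)
    push_cast at this
    exact this
  have h7 : (0 : ℝ) ≤ Q.totient := Nat.cast_nonneg _
  have h8 : (0 : ℝ) ≤ Q := Nat.cast_nonneg _
  calc (Q : ℝ) ≤ ((Q.primeFactors.card : ℝ) + 1) * Q.totient := by rw [h2]; nlinarith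
    _ ≤ _ := mul_le_mul_of_nonneg_right (by linarith [omega_le hQ]) h7

lemma card_le {n A : ℕ} (hn : 1 ≤ n) {Y : ℝ} (hY : 0 ≤ Y)
    (h : ∀ q ∈ A.primeFactors, (q : ℝ) ≤ Y * n ∧ (q ∣ n ∨ n ∣ q - 1 ∨ n ∣ q + 1)) :
    (A.primeFactors.card : ℝ) ≤ 2 * Real.log n + 2 * Y + 4 := by
  have hn' : (0 : ℝ) < n := by exact_mod_cast hn
  have h1 : A.primeFactors ⊆ n.primeFactors ∪ (((range (⌊Y⌋₊ + 2)).image fun j => n * j + 1) ∪
      (range (⌊Y⌋₊ + 2)).image fun j => n * j - 1) := fun q hq => by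
    have hp := Nat.prime_of_mem_primeFactors hq
    have h2 := hp.two_le
    obtain ⟨h3, h4⟩ := h q hq
    have key : ∀ j : ℕ, n * j ≤ q + 1 → j < ⌊Y⌋₊ + 2 := fun j hj => by
      rcases Nat.eq_zero_or_pos j with rfl | h0
      · omega
      obtain ⟨i, rfl⟩ := Nat.exists_eq_add_one_of_ne_zero h0.ne'
      have h5 : n * i ≤ q := by nlinarith
      have h6 : (i : ℝ) * n ≤ Y * n := by
        rw [mul_comm]; exact le_trans (by exact_mod_cast h5) h3
      have := Nat.le_floor (le_of_mul_le_mul_right h6 hn')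
      omega
    rcases h4 with h4 | ⟨j, hj⟩ | ⟨j, hj⟩
    · exact mem_union_left _ (Nat.mem_primeFactors.mpr ⟨hp, h4, by omega⟩)
    · exact mem_union_right _ (mem_union_left _
        (mem_image.mpr ⟨j, mem_range.mpr (key j (by omega)), by omega⟩))
    · exact mem_union_right _ (mem_union_right _
        (mem_image.mpr ⟨j, mem_range.mpr (key j (by omega)), by omega⟩))
  have h2 := (card_le_card h1).trans ((card_union_le _ _).trans (Nat.add_le_add_left
    ((card_union_le _ _).trans (Nat.add_le_add card_image_le card_image_le)) _))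
  rw [card_range] at h2
  have h3 : (A.primeFactors.card : ℝ) ≤ n.primeFactors.card + ((⌊Y⌋₊ + 2) + (⌊Y⌋₊ + 2)) := by
    exact_mod_cast h2
  linarith [omega_le hn, Nat.floor_le hY]

/-- the basic inequality -/
lemma main_ineq {n c : ℕ} (hn : 1 ≤ n) (hc : c ≠ 0) {x : ℤ√2} (hx : x = ⟨3, 2⟩ ∨ x = -⟨3, 2⟩)
    (hd : (x ^ n - 1).norm.natAbs ∣ c) {Y B : ℝ} (hY : 0 ≤ Y) (hB : 0 ≤ B)
    (h : ∀ q : ℕ, q.Prime → q ∣ c → (q : ℝ) ≤ Y * n ∧ c.factorization q * Real.log q ≤ B) :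
    (n : ℝ) ≤ (2 * Real.log n + 1) * ((2 * Real.log n + 2 * Y + 4) * B) := by
  have h1 := (cy_dvd n x).trans hd
  have h2 : (n.totient : ℝ) ≤ Real.log (cy n x) := by
    have h3 : ((4 : ℝ) ^ n.totient) ≤ cy n x := by exact_mod_cast cy_ge (by omega) hx
    have h4 := Real.log_le_log (by positivity) h3
    rw [Real.log_pow, show (4 : ℝ) = 2 ^ 2 by norm_num, Real.log_pow] at h4
    have := Real.log_two_gt_d9
    have h5 : (0 : ℝ) ≤ n.totient := Nat.cast_nonneg _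
    push_cast at h4
    nlinarith
  have h0 : cy n x ≠ 0 := fun h0 => hc (Nat.eq_zero_of_zero_dvd (h0 ▸ h1))
  have hx1 : x.norm = 1 := by rcases hx with rfl | rfl <;> simp [Zsqrtd.norm]
  have h3 : Real.log (cy n x) ≤ (cy n x).primeFactors.card * B := by
    rw [Real.log_nat_eq_sum_factorization, Finsupp.sum, Nat.support_factorization, ← nsmul_eq_mul]
    refine sum_le_card_nsmul _ _ _ fun q hq => ?_
    refine le_trans (mul_le_mul_of_nonneg_right ?_ (Real.log_natCast_nonneg q))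
      (h q (Nat.prime_of_mem_primeFactors hq) ((Nat.dvd_of_mem_primeFactors hq).trans h1)).2
    exact_mod_cast (Nat.factorization_le_iff_dvd h0 hc).mpr h1 q
  have h4 := card_le (A := cy n x) hn hY fun q hq => by
    have hp := Nat.prime_of_mem_primeFactors hq
    have hq' := Nat.dvd_of_mem_primeFactors hq
    exact ⟨(h q hp (hq'.trans h1)).1, or_iff_not_imp_left.mpr (prime_cy hp hx1 hq')⟩
  refine (le_phi hn).trans (mul_le_mul_of_nonneg_left (h2.trans (h3.trans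
    (mul_le_mul_of_nonneg_right h4 hB))) ?_)
  linarith [Real.log_natCast_nonneg n]

end Pool.Agent.Lib.NSW77
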