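import Pool.Agent.Lib.NSW77.Elem
import Pool.Agent.Lib.Szpiro98.Blue4

set_option autoImplicit false

open Finset Filter

namespace Pool.Agent.Lib.NSW77
open Pool.Agent.Szpiro98

lemma abs_le_eight {d : ℤ} (hd : d ≠ 0) (h2 : padicValInt 2 d ≤ 3)
    (h : ∀ p : ℕ, p.Prime → p ≠ 2 → padicValInt p d = 0) : |(d : ℝ)| ≤ 8 := by
  have h0 : d.natAbs ≠ 0 := Int.natAbs_ne_zero.mpr hd
  have h1 : d.natAbs ∣ 2 ^ 3 := by
    rw [← Nat.factorization_prime_le_iff_dvd h0 (by norm_num)]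
    intro p hp
    rw [Nat.factorization_def _ hp, Nat.prime_two.factorization_pow]
    rcases eq_or_ne p 2 with rfl | e
    · simpa [padicValInt] using h2
    · exact (h p hp e).le.trans (Nat.zero_le _)
  have h3 : (d.natAbs : ℝ) ≤ 8 := by exact_mod_cast Nat.le_of_dvd (by norm_num) h1
  rwa [Nat.cast_natAbs, Int.cast_abs] at h3

lemma bnd_le {C δ D κ Z 𝓛 : ℝ} (hC : 1 ≤ C) (δ1 : δ ≤ 1) (D1 : 1 ≤ D) (D8 : D ≤ 8) (κ1 : 1 ≤ κ)
    (κZ : κ ≤ Z) (h𝓛 : 1 ≤ 𝓛) : V4.bnd C δ {2} D κ 𝓛 ≤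
      C ^ 3 * 10 ^ 12 * ((1 + Real.log Z) ^ 10 * Z ^ (1 - δ)) * Real.log 𝓛 ^ 3 := by
  have l0 := Real.log_nonneg κ1
  have l1 := Real.log_le_log (by linarith) κZ
  have l2 := Real.log_nonneg h𝓛
  have l3 := Real.log_nonneg D1
  have l4 : Real.log D ≤ 7 := (Real.log_le_sub_one_of_pos (by linarith)).trans (by linarith)
  have l5 := Real.log_two_lt_d9
  have l6 := Real.log_two_gt_d9
  have e1 : κ * min 1 (V4.sv C δ {2} D κ) ≤
      C * 8 ^ 4 * 2 ^ 10 * ((1 + Real.log Z) ^ 10 * Z ^ (1 - δ)) := by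
    refine (mul_le_mul_of_nonneg_left (min_le_right _ _) (by linarith)).trans ?_
    have h1 : κ ^ (1 - δ) ≤ Z ^ (1 - δ) := Real.rpow_le_rpow (by linarith) κZ (by linarith)
    rw [Real.rpow_sub (by linarith), Real.rpow_one] at h1
    have h2 : κ * V4.sv C δ {2} D κ = C * D ^ 4 * 2 ^ 10 * ((1 + Real.log κ) ^ 10 * (κ / κ ^ δ)) := by
      simp only [V4.sv, card_singleton]
      norm_num
      ring
    rw [h2]
    gcongr
  have e2 : √D * (1 + Real.log D) ^ 4 ≤ 3 * 8 ^ 4 := by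
    have : √D ≤ 3 := Real.sqrt_le_iff.mpr ⟨by norm_num, by linarith⟩
    gcongr
    linarith
  have e3 : Real.log 2 ^ 3 ≤ 1 := pow_le_one₀ (by linarith) (by linarith)
  have e0 : 0 ≤ κ * min 1 (V4.sv C δ {2} D κ) := by
    refine mul_nonneg (by linarith) (le_min zero_le_one ?_)
    rw [V4.sv]; positivity
  have e4 : 0 ≤ (1 + Real.log Z) ^ 10 * Z ^ (1 - δ) :=
    mul_nonneg (by positivity) (Real.rpow_nonneg (by linarith) _)
  simp only [V4.bnd, Szpiro98.bnd, prod_singleton, Nat.cast_ofNat]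
  refine mul_le_mul_of_nonneg_right ?_ (by positivity)
  calc _ ≤ C * (C * 1) * (3 * 8 ^ 4) *
        (C * 8 ^ 4 * 2 ^ 10 * ((1 + Real.log Z) ^ 10 * Z ^ (1 - δ))) := by gcongr
    _ = C ^ 3 * (3 * 8 ^ 4 * 8 ^ 4 * 2 ^ 10) * ((1 + Real.log Z) ^ 10 * Z ^ (1 - δ)) := by ring
    _ ≤ _ := by gcongr; norm_num

lemma val_le {C δ : ℝ} (hC : 1 ≤ C) (δ1 : δ ≤ 1) (hQ : V4.Quad (V4.bnd C δ)) {A B : ℤ} {s : ℕ}
    (hs : s ≠ 0) (e : ((8 * s ^ 2 : ℕ) : ℤ) = A ^ 2 - 4 * B) (hB : B = 2 ∨ B = -1) {𝓛 Z : ℝ}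
    (h3 : 3 ≤ 𝓛) (hA : |(A : ℝ)| + 3 * s ≤ Real.exp 𝓛) {q : ℕ} (hq : q.Prime) (hZ : (q : ℝ) ≤ Z) :
    (8 * s ^ 2).factorization q * Real.log q ≤ 8 * Real.log Z +
      2 * (C ^ 3 * 10 ^ 12 * ((1 + Real.log Z) ^ 10 * Z ^ (1 - δ)) * Real.log 𝓛 ^ 3) := by
  have : Fact q.Prime := ⟨hq⟩
  have s0 : (0 : ℝ) < s := by exact_mod_cast Nat.pos_of_ne_zero hs
  have hv : ∀ (p : ℕ) [Fact p.Prime], padicValInt p ((8 * s ^ 2 : ℕ) : ℤ) =
      padicValNat p 8 + 2 * padicValNat p s := fun p _ => by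
    rw [padicValInt.of_nat, padicValNat.mul (by norm_num) (pow_ne_zero _ hs), padicValNat.pow]
  have hsq : √|(((8 * s ^ 2 : ℕ) : ℤ) : ℝ)| ≤ 3 * s := by
    refine Real.sqrt_le_iff.mpr ⟨by positivity, ?_⟩
    push_cast
    rw [abs_of_nonneg (by positivity)]
    nlinarith
  obtain ⟨d, d0, d1, -, d2⟩ := hQ A B _ {2} 𝓛 e (by
      rw [Int.isSquare_natCast_iff]
      rintro ⟨t, ht⟩
      have h1 := congrArg (padicValNat 2) ht
      have t0 : t ≠ 0 := by rintro rfl; exact hs (by simpa using ht)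
      rw [padicValNat.mul t0 t0, padicValNat.mul (by norm_num) (pow_ne_zero _ hs),
        padicValNat.pow, show (8 : ℕ) = 2 ^ 3 from rfl, padicValNat.prime_pow] at h1
      omega) (by rcases hB with rfl | rfl <;> norm_num)
    (fun p hp h => by
      have h1 : (2 : ℤ) ^ 8 ≤ (p : ℤ) ^ 8 := by
        gcongr
        exact_mod_cast hp.two_le
      have h2 := Int.le_of_dvd (abs_pos.mpr (show B ≠ 0 by rcases hB with rfl | rfl <;> norm_num))
        ((dvd_abs _ _).mpr h.2)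
      rcases hB with rfl | rfl <;> norm_num at h1 h2 <;> omega)
    (by simpa using Nat.prime_two)
    (by rcases hB with rfl | rfl <;> simp [Nat.prime_two.primeFactors]) h3 (by linarith)
  have d8 := abs_le_eight d0 (d1 2 Nat.prime_two).1 fun p hp e => by
    have : Fact p.Prime := ⟨hp⟩
    have h1 := (d1 p hp).2 e
    rw [hv, show (8 : ℕ) = 2 ^ 3 from rfl, padicValNat_prime_prime_pow 3 e] at h1
    omega
  have d9 : (1 : ℝ) ≤ |(d : ℝ)| := by exact_mod_cast Int.one_le_abs d0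
  have q1 : (1 : ℝ) ≤ q := by exact_mod_cast hq.one_le
  have k : 1 ≤ kap q (padicValInt q ((8 * s ^ 2 : ℕ) : ℤ)) ∧
      kap q (padicValInt q ((8 * s ^ 2 : ℕ) : ℤ)) ≤ Z := by
    unfold kap
    split_ifs
    exacts [⟨le_rfl, q1.trans hZ⟩, ⟨q1, hZ⟩]
  have b := bnd_le hC δ1 d9 d8 k.1 k.2 (show 1 ≤ 𝓛 by linarith)
  have l1 := Real.log_le_log (by linarith) hZ
  have l2 := Real.log_nonneg q1
  by_cases hb : V4.bnd C δ {2} |(d : ℝ)| (kap q (padicValInt q ((8 * s ^ 2 : ℕ) : ℤ))) 𝓛 < 𝓛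
  · have h1 := d2 q hq hb
    rw [padicValInt.of_nat, ← Nat.factorization_def _ hq] at h1
    rw [padicValInt.of_nat, ← Nat.factorization_def _ hq] at b
    linarith
  · have h1 : ((q ^ (8 * s ^ 2).factorization q : ℕ) : ℝ) ≤ (8 * s ^ 2 : ℕ) := by
      exact_mod_cast Nat.ordProj_le q (by positivity)
    have h2 : ((8 * s ^ 2 : ℕ) : ℝ) ≤ Real.exp 𝓛 ^ 2 := by
      have : (3 * s : ℝ) ^ 2 ≤ Real.exp 𝓛 ^ 2 := by
        gcongr
        linarith [abs_nonneg (A : ℝ)]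
      push_cast
      nlinarith
    have h4 := Real.log_le_log (by exact_mod_cast pow_pos hq.pos _) (h1.trans h2)
    rw [Nat.cast_pow, Real.log_pow, Real.log_pow, Real.log_exp] at h4
    push_cast at h4 ⊢
    linarith [not_lt.mp hb]

lemma numeric {K δ : ℝ} (hK : 1 ≤ K) (δ0 : 0 < δ) (δ1 : δ ≤ 1) : ∃ n0 : ℕ, ∀ n : ℕ, n0 ≤ n →
    3 ≤ n ∧ (2 * Real.log n + 1) * ((2 * Real.log n + 2 * (n : ℝ) ^ (δ / 3) + 4) *
      (8 * Real.log ((n : ℝ) ^ (1 + δ / 3)) + 2 * (K * ((1 + Real.log ((n : ℝ) ^ (1 + δ / 3))) ^ 10 *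
        ((n : ℝ) ^ (1 + δ / 3)) ^ (1 - δ)) * Real.log (n + 3) ^ 3))) < n := by
  have h := (isLittleO_log_rpow_rpow_atTop 15 (show 0 < δ / 3 by linarith)).bound
    (show 0 < 1 / (10 ^ 9 * K) by positivity)
  obtain ⟨n0, h0⟩ := eventually_atTop.mp ((tendsto_natCast_atTop_atTop (R := ℝ)).eventually h)
  refine ⟨max n0 3, fun n hn => ⟨le_of_max_le_right hn, ?_⟩⟩
  have n3 : (3 : ℝ) ≤ n := by exact_mod_cast le_of_max_le_right hn
  have n0' : (0 : ℝ) < n := by linarith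
  have h1 := h0 n (le_of_max_le_left hn)
  have l1 : 1 ≤ Real.log n := by
    rw [Real.le_log_iff_exp_le n0']
    linarith [Real.exp_one_lt_d9]
  rw [Real.norm_of_nonneg (by positivity), Real.norm_of_nonneg (by positivity),
    show (15 : ℝ) = (15 : ℕ) by norm_num, Real.rpow_natCast] at h1
  have y1 : 1 ≤ (n : ℝ) ^ (δ / 3) := Real.one_le_rpow (by linarith) (by linarith)
  have l2 : Real.log (n + 3) ≤ 2 * Real.log n := by
    rw [show 2 * Real.log n = Real.log ((n : ℝ) ^ 2) by rw [Real.log_pow]; norm_num]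
    exact Real.log_le_log (by linarith) (by nlinarith)
  have l3 : 0 ≤ Real.log (n + 3) := Real.log_nonneg (by linarith)
  rw [Real.log_rpow n0', ← Real.rpow_mul n0'.le]
  set l := Real.log n
  set Y := (n : ℝ) ^ (δ / 3) with hY
  set W := (n : ℝ) ^ ((1 + δ / 3) * (1 - δ)) with hW
  have w1 : 1 ≤ W := Real.one_le_rpow (by linarith) (by nlinarith)
  have w2 : Y * Y * W ≤ n := by
    rw [hY, hW, ← Real.rpow_add n0', ← Real.rpow_add n0']
    conv_rhs => rw [← Real.rpow_one n]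
    exact Real.rpow_le_rpow_of_exponent_le (by linarith) (by nlinarith)
  have a1 : (1 + δ / 3) * l ≤ 2 * l := by nlinarith
  have a0 : 0 ≤ (1 + δ / 3) * l := by positivity
  have a2 : l ≤ K * l ^ 13 * W := by
    have := pow_le_pow_right₀ l1 (show 1 ≤ 13 by norm_num)
    rw [pow_one] at this
    calc l ≤ 1 * l ^ 13 * 1 := by linarith
      _ ≤ _ := by gcongr
  have a3 : K * ((1 + (1 + δ / 3) * l) ^ 10 * W) * Real.log (n + 3) ^ 3 ≤
      K * ((3 * l) ^ 10 * W) * (2 * l) ^ 3 := by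
    gcongr
    linarith
  have a4 : 8 * ((1 + δ / 3) * l) + 2 * (K * ((1 + (1 + δ / 3) * l) ^ 10 * W) *
      Real.log (n + 3) ^ 3) ≤ 10 ^ 6 * (K * l ^ 13 * W) := by
    have : K * ((3 * l) ^ 10 * W) * (2 * l) ^ 3 = 472392 * (K * l ^ 13 * W) := by ring
    linarith
  have a5 : 2 * l + 2 * Y + 4 ≤ 8 * (l * Y) := by nlinarith
  have a6 : 10 ^ 9 * K * l ^ 15 ≤ Y := by
    rw [one_div, inv_mul_eq_div, le_div_iff₀ (by positivity)] at h1
    linarith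
  have a7 : 0 < K * l ^ 15 * (Y * W) := by positivity
  calc _ ≤ (3 * l) * ((8 * (l * Y)) * (10 ^ 6 * (K * l ^ 13 * W))) := by
        gcongr
        linarith
    _ = 24 * 10 ^ 6 * (K * l ^ 15 * (Y * W)) := by ring
    _ < 10 ^ 9 * K * l ^ 15 * (Y * W) := by linarith
    _ ≤ Y * (Y * W) := by gcongr
    _ ≤ n := by linarith

theorem nsw (lt : V4.LocTStmt) (qs : V4.QuadStmt) : ∃ δ : ℝ, 0 < δ ∧ ∃ N : ℕ, ∀ p r : ℕ, N ≤ p →
    (p : ℤ) ^ 2 - 2 * (r : ℤ) ^ 2 = -1 →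
    (∃ q : ℕ, q.Prime ∧ q ∣ p ∧ Real.log p ^ (1 + δ) < q) ∧
      ∃ q : ℕ, q.Prime ∧ q ∣ r ∧ Real.log p ^ (1 + δ) < q := by
  obtain ⟨C1, h1⟩ := locp'
  obtain ⟨C2, h2⟩ := loci'
  obtain ⟨δ, C3, δ0, δ1, h3⟩ := lt
  set C := max (max 10 C3) (max C1 C2)
  have c0 : 10 ≤ C := (le_max_left _ _).trans (le_max_left _ _)
  obtain ⟨p1, p2⟩ := V4.comb (δ := δ) (by linarith)
    (h1 C ((le_max_left _ _).trans (le_max_right _ _)))
    (h2 C ((le_max_right _ _).trans (le_max_right _ _)))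
    (h3 C ((le_max_right _ _).trans (le_max_left _ _)))
  have hQ := qs _ p1 p2
  obtain ⟨n0, hn0⟩ := numeric (K := C ^ 3 * 10 ^ 12) (one_le_mul_of_one_le_of_one_le
    (one_le_pow₀ (by linarith)) (by norm_num)) δ0 δ1
  refine ⟨δ / 3, by linarith, ⌈Real.exp n0⌉₊, fun p r hp e => ?_⟩
  obtain ⟨k, hk⟩ := param r p (by
    have : (p : ℤ) ^ 2 + 1 = 2 * r ^ 2 := by linarith
    exact_mod_cast this)
  set n := 2 * k + 1
  have hn : Odd n := odd_two_mul_add_one k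
  have a1 := le_exp hk
  have a2 := Nat.le_of_ceil_le hp
  have r0 : (0 : ℝ) ≤ r := Nat.cast_nonneg r
  have p0 : (0 : ℝ) < p := (Real.exp_pos _).trans_le a2
  obtain ⟨n3, a3⟩ := hn0 n (by exact_mod_cast Real.exp_le_exp.mp (by linarith : Real.exp n0 ≤ Real.exp n))
  have n3' : (3 : ℝ) ≤ n := by exact_mod_cast n3
  have a4 : 4 * ((p : ℝ) + r) ≤ Real.exp (n + 3) := by
    rw [Real.exp_add]
    have := Real.add_one_le_exp (3 : ℝ)
    nlinarith [Real.exp_pos n]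
  have a5 : Real.log p ^ (1 + δ / 3) ≤ (n : ℝ) ^ (1 + δ / 3) :=
    Real.rpow_le_rpow (Real.log_natCast_nonneg p)
      ((Real.log_le_iff_le_exp p0).mpr (by linarith)) (by linarith)
  have a6 : (n : ℝ) ≤ (n : ℝ) ^ (1 + δ / 3) := by
    conv_lhs => rw [← Real.rpow_one n]
    exact Real.rpow_le_rpow_of_exponent_le (by linarith) (by linarith)
  have key : ∀ (s : ℕ) (x : ℤ√2) (A B : ℤ), s ≠ 0 → (x = ⟨3, 2⟩ ∨ x = -⟨3, 2⟩) →
      (x ^ n - 1).norm.natAbs ∣ 8 * s ^ 2 → ((8 * s ^ 2 : ℕ) : ℤ) = A ^ 2 - 4 * B →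
      (B = 2 ∨ B = -1) → |(A : ℝ)| + 3 * s ≤ Real.exp (n + 3) →
      ∃ q : ℕ, q.Prime ∧ q ∣ s ∧ Real.log p ^ (1 + δ / 3) < q := by
    intro s x A B s0 hx hd e hB hA
    by_contra! H
    refine absurd (main_ineq (by omega) (by positivity) hx hd (by positivity) ?_ fun q hq h => ?_)
      (not_le.mpr a3)
    · have := Real.log_nonneg (show 1 ≤ (n : ℝ) ^ (1 + δ / 3) by linarith)
      have := Real.log_nonneg (show 1 ≤ (n : ℝ) + 3 by linarith)
      positivity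
    · have hZ : (q : ℝ) ≤ (n : ℝ) ^ (1 + δ / 3) := by
        rcases (Nat.Prime.dvd_mul hq).mp h with h | h
        · rw [(Nat.prime_dvd_prime_iff_eq hq Nat.prime_two).mp
            (hq.dvd_of_dvd_pow (n := 3) (by simpa using h))]
          push_cast
          linarith
        · exact (H q hq (hq.dvd_of_dvd_pow h)).trans a5
      refine ⟨?_, val_le (by linarith) δ1 hQ s0 e hB (by linarith) hA hq hZ⟩
      rwa [add_comm, Real.rpow_add (by linarith), Real.rpow_one] at hZ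
  obtain ⟨b1, b2⟩ := norm_p hn hk
  refine ⟨key p _ (4 * r) 2 (by exact_mod_cast p0.ne') (Or.inl rfl)
      (b1 ▸ ⟨2, by ring⟩) (by push_cast; linarith) (Or.inl rfl) ?_,
    key r _ (2 * p) (-1) (by rintro rfl; push_cast at e; nlinarith [sq_nonneg (p : ℤ)]) (Or.inr rfl) b2.dvd (by push_cast; linarith)
      (Or.inr rfl) ?_⟩
  · push_cast
    rw [abs_of_nonneg (by positivity)]
    linarith
  · push_cast
    rw [abs_of_nonneg (by positivity)]
    linarith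

end Pool.Agent.Lib.NSW77
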